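import Mathlib

/-!
Averages of functions of weighted sign sums.
-/

namespace Pool.Agent.MP_223ae3_pr

/-- The average over one random sign with weight `x`. -/
noncomputable def T (x : ℝ) (f : ℝ → ℝ) : ℝ → ℝ := fun t => (f (t + x) + f (t - x)) / 2

instance : LeftCommutative T := ⟨by
  intro x y f
  funext t
  simp only [T]
  have e1 : t + x + y = t + y + x := by ring
  have e2 : t + x - y = t - y + x := by ring
  have e3 : t - x + y = t + y - x := by ring
  have e4 : t - x - y = t - y - x := by ring
  rw [e1, e2, e3, e4]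
  ring⟩

/-- The expectation of `f (t + ∑ x ε_x)`, the sum over the multiset `s` of weights. -/
noncomputable def avg (s : Multiset ℝ) (f : ℝ → ℝ) : ℝ → ℝ := s.foldr T f

@[simp] theorem avg_zero (f : ℝ → ℝ) : avg 0 f = f := rfl

@[simp] theorem avg_cons (x : ℝ) (s : Multiset ℝ) (f : ℝ → ℝ) :
    avg (x ::ₘ s) f = T x (avg s f) := by simp [avg]

theorem avg_mono (s : Multiset ℝ) {f g : ℝ → ℝ} (h : ∀ t, f t ≤ g t) (t : ℝ) :
    avg s f t ≤ avg s g t := by
  induction s using Multiset.induction generalizing t with
  | empty => exact h t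
  | cons x s ih =>
    simp only [avg_cons, T]
    have h1 := ih (t + x)
    have h2 := ih (t - x)
    linarith

theorem avg_add (s : Multiset ℝ) (f g : ℝ → ℝ) (t : ℝ) :
    avg s (fun t => f t + g t) t = avg s f t + avg s g t := by
  induction s using Multiset.induction generalizing t with
  | empty => rfl
  | cons x s ih =>
    simp only [avg_cons, T, ih]
    ring

theorem avg_mul_left (s : Multiset ℝ) (c : ℝ) (f : ℝ → ℝ) (t : ℝ) :
    avg s (fun t => c * f t) t = c * avg s f t := by
  induction s using Multiset.induction generalizing t with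
  | empty => rfl
  | cons x s ih =>
    simp only [avg_cons, T, ih]
    ring

theorem avg_const (s : Multiset ℝ) (c : ℝ) (t : ℝ) : avg s (fun _ => c) t = c := by
  induction s using Multiset.induction generalizing t with
  | empty => rfl
  | cons x s ih =>
    simp only [avg_cons, T, ih]
    ring

theorem avg_sum {ι : Type*} (s : Multiset ℝ) (I : Finset ι) (f : ι → ℝ → ℝ) (t : ℝ) :
    avg s (fun t => ∑ i ∈ I, f i t) t = ∑ i ∈ I, avg s (f i) t := by
  classical
  induction I using Finset.induction with
  | empty => simp [avg_const]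
  | insert i I hi ih =>
    simp only [Finset.sum_insert hi]
    rw [avg_add, ih]

theorem avg_shift (s : Multiset ℝ) (f : ℝ → ℝ) (c t : ℝ) :
    avg s (fun t => f (t + c)) t = avg s f (t + c) := by
  induction s using Multiset.induction generalizing t with
  | empty => rfl
  | cons x s ih =>
    simp only [avg_cons, T, ih]
    have e1 : t + x + c = t + c + x := by ring
    have e2 : t - x + c = t + c - x := by ring
    rw [e1, e2]

theorem avg_neg (s : Multiset ℝ) (f : ℝ → ℝ) (t : ℝ) :
    avg s (fun t => f (-t)) t = avg s f (-t) := by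
  induction s using Multiset.induction generalizing t with
  | empty => rfl
  | cons x s ih =>
    simp only [avg_cons, T, ih]
    have e1 : -(t + x) = -t - x := by ring
    have e2 : -(t - x) = -t + x := by ring
    rw [e1, e2, add_comm]

theorem avg_reflect (s : Multiset ℝ) (f : ℝ → ℝ) (y : ℝ) :
    avg s (fun z => f (2 * y - z)) y = avg s f y := by
  have h1 : avg s (fun z => f (2 * y - z)) y = avg s (fun z => f (-z + 2 * y)) y := by
    congr 1
    funext z
    congr 1
    ring
  rw [h1, avg_neg s (fun z => f (z + 2 * y)) y, avg_shift]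
  congr 1
  ring

theorem avg_sq (s : Multiset ℝ) (t : ℝ) :
    avg s (fun t => t ^ 2) t = t ^ 2 + (s.map (fun x => x ^ 2)).sum := by
  induction s using Multiset.induction generalizing t with
  | empty => simp
  | cons x s ih =>
    simp only [avg_cons, T, ih, Multiset.map_cons, Multiset.sum_cons]
    ring

open Classical in
/-- The indicator function of an interval. -/
noncomputable def ind (p q : ℝ) : ℝ → ℝ := fun t => if p ≤ t ∧ t ≤ q then 1 else 0

theorem ind_nonneg (p q t : ℝ) : 0 ≤ ind p q t := by
  unfold ind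
  split_ifs <;> norm_num

theorem ind_of_mem {p q t : ℝ} (h1 : p ≤ t) (h2 : t ≤ q) : ind p q t = 1 := by
  unfold ind
  rw [if_pos ⟨h1, h2⟩]

theorem ind_le_ind {p q p' q' : ℝ} (h1 : p' ≤ p) (h2 : q ≤ q') (t : ℝ) :
    ind p q t ≤ ind p' q' t := by
  unfold ind
  split_ifs with h h'
  · exact le_refl _
  · exact absurd ⟨h1.trans h.1, h.2.trans h2⟩ h'
  · exact zero_le_one
  · exact le_refl _

/-- The reflection principle. -/
theorem reflection (s : Multiset ℝ) {a t l : ℝ} (ha : 0 ≤ a) (ht : 0 ≤ t) (hl : 0 ≤ l)
    (hs : ∀ x ∈ s, 0 ≤ x ∧ x ≤ a) (y : ℝ) (hy : y ≤ t / 2) :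
    avg s (ind t (t + l)) y ≤ avg s (ind (-l) (2 * a)) y := by
  induction s using Multiset.induction generalizing y with
  | empty =>
    simp only [avg_zero]
    unfold ind
    split_ifs with h h'
    · exact le_refl _
    · exfalso
      apply h'
      constructor <;> linarith [h.1, h.2]
    · exact zero_le_one
    · exact le_refl _
  | cons x s ih =>
    have hx := hs x (Multiset.mem_cons_self x s)
    have hs' : ∀ x ∈ s, 0 ≤ x ∧ x ≤ a := fun z hz => hs z (Multiset.mem_cons_of_mem hz)
    simp only [avg_cons, T]
    have h2 := ih hs' (y - x) (by linarith [hx.1])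
    have h1 : avg s (ind t (t + l)) (y + x) ≤ avg s (ind (-l) (2 * a)) (y + x) := by
      by_cases hyx : y + x ≤ t / 2
      · exact ih hs' (y + x) hyx
      · push Not at hyx
        rw [← avg_reflect s (ind t (t + l)) (y + x)]
        apply avg_mono
        intro z
        unfold ind
        split_ifs with h h'
        · exact le_refl _
        · exfalso
          apply h'
          constructor <;> linarith [h.1, h.2, hx.1, hx.2]
        · exact zero_le_one
        · exact le_refl _
    linarith

/-- A small ball estimate at the scale `l` for weights at most `l / 2`. -/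
theorem small_ball_aux (s : Multiset ℝ) {a b l : ℝ} (ha : 0 < a) (ha1 : a ≤ 1) (hb : 0 ≤ b)
    (hal : a ≤ l) (hbl : 2 * b ≤ l) (hs : ∀ x ∈ s, 0 ≤ x ∧ x ≤ b)
    (hsum : (s.map (fun x => x ^ 2)).sum ≤ 1) : a / 8 ≤ avg s (ind (-l) l) 0 := by
  have hl : 0 ≤ l := ha.le.trans hal
  set p := avg s (ind (-l) l) 0 with hp
  have h1 : ∀ t, 0 ≤ t → avg s (ind t (t + l)) 0 ≤ p := by
    intro t ht
    refine (reflection s hb ht hl hs 0 (by linarith)).trans ?_
    exact avg_mono s (ind_le_ind (le_refl _) hbl) 0
  have h2 : ∀ t, 0 ≤ t → avg s (ind (-(t + l)) (-t)) 0 ≤ p := by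
    intro t ht
    have h3 : (ind (-(t + l)) (-t)) = fun z => ind t (t + l) (-z) := by
      funext z
      unfold ind
      have : (-(t + l) ≤ z ∧ z ≤ -t) ↔ (t ≤ -z ∧ -z ≤ t + l) := by
        constructor <;> rintro ⟨h1, h2⟩ <;> constructor <;> linarith
      simp only [this]
    rw [h3, avg_neg, neg_zero]
    exact h1 t ht
  -- Chebyshev
  have h4 : 3 / 4 ≤ avg s (ind (-2) 2) 0 := by
    have h5 : ∀ t, 1 + (-1 / 4) * t ^ 2 ≤ ind (-2) 2 t := by
      intro t
      unfold ind
      split_ifs with h
      · nlinarith [sq_nonneg t]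
      · have : 4 < t ^ 2 := by
          by_contra hc
          push Not at hc
          apply h
          constructor <;> nlinarith
        linarith
    have h6 := avg_mono s h5 0
    rw [avg_add, avg_mul_left, avg_sq, avg_const] at h6
    nlinarith
  -- covering
  obtain ⟨N, hN1, hN2⟩ : ∃ N : ℕ, 2 ≤ N * a ∧ N * a ≤ 3 := by
    refine ⟨⌈2 / a⌉₊, ?_, ?_⟩
    · have := Nat.le_ceil (2 / a)
      rwa [div_le_iff₀ ha] at this
    · have := (Nat.ceil_lt_add_one (show (0 : ℝ) ≤ 2 / a by positivity)).le
      have h7 : (⌈2 / a⌉₊ : ℝ) * a ≤ (2 / a + 1) * a := by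
        exact mul_le_mul_of_nonneg_right this ha.le
      have h8 : (2 / a + 1) * a = 2 + a := by
        field_simp
      linarith
  have hcov : ∀ t, ind (-2) 2 t ≤ ∑ k ∈ Finset.range N,
      (ind (k * l) (k * l + l) t + ind (-(k * l + l)) (-(k * l)) t) := by
    intro t
    have hnn : ∀ k ∈ Finset.range N,
        0 ≤ ind (k * l) (k * l + l) t + ind (-(k * l + l)) (-(k * l)) t := fun k _ =>
      add_nonneg (ind_nonneg _ _ _) (ind_nonneg _ _ _)
    by_cases ht : -2 ≤ t ∧ t ≤ 2
    · rw [ind_of_mem ht.1 ht.2]
      have hNl : 2 ≤ N * l := hN1.trans (mul_le_mul_of_nonneg_left hal (Nat.cast_nonneg _))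
      have hlpos : 0 < l := ha.trans_le hal
      -- find k with k * l ≤ |t| ≤ (k + 1) * l
      have hk : ∃ k ∈ Finset.range N, (k : ℝ) * l ≤ |t| ∧ |t| ≤ k * l + l := by
        have habs : |t| ≤ 2 := abs_le.2 ht
        by_cases hlt : |t| / l < N
        · refine ⟨⌊|t| / l⌋₊, ?_, ?_, ?_⟩
          · rw [Finset.mem_range]
            exact (Nat.floor_lt (by positivity)).2 hlt
          · have := Nat.floor_le (show 0 ≤ |t| / l by positivity)
            rwa [le_div_iff₀ hlpos] at this
          · have := (Nat.lt_floor_add_one (|t| / l)).le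
            rw [div_le_iff₀ hlpos] at this
            linarith
        · push Not at hlt
          have h9 : |t| = N * l := by
            rw [le_div_iff₀ hlpos] at hlt
            linarith
          have hNpos : 0 < N := by
            rcases Nat.eq_zero_or_pos N with h | h
            · rw [h] at hNl
              norm_num at hNl
            · exact h
          refine ⟨N - 1, Finset.mem_range.2 (by omega), ?_, ?_⟩
          · rw [h9, Nat.cast_sub hNpos]
            push_cast
            nlinarith
          · rw [h9, Nat.cast_sub hNpos]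
            push_cast
            nlinarith
      obtain ⟨k, hkN, hk1, hk2⟩ := hk
      refine le_trans ?_ (Finset.single_le_sum hnn hkN)
      rcases le_total 0 t with h0 | h0
      · rw [abs_of_nonneg h0] at hk1 hk2
        rw [ind_of_mem hk1 hk2]
        linarith [ind_nonneg (-(k * l + l)) (-(k * l)) t]
      · rw [abs_of_nonpos h0] at hk1 hk2
        rw [ind_of_mem (show -(k * l + l) ≤ t by linarith) (show t ≤ -(k * l) by linarith)]
        linarith [ind_nonneg (k * l) (k * l + l) t]
    · have : ind (-2) 2 t = 0 := by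
        unfold ind
        rw [if_neg ht]
      rw [this]
      exact Finset.sum_nonneg hnn
  have h10 := avg_mono s hcov 0
  rw [avg_sum] at h10
  have h11 : ∑ k ∈ Finset.range N, avg s (fun t => ind (k * l) (k * l + l) t +
      ind (-(k * l + l)) (-(k * l)) t) 0 ≤ ∑ k ∈ Finset.range N, (2 * p) := by
    apply Finset.sum_le_sum
    intro k _
    rw [avg_add]
    have hkl : 0 ≤ (k : ℝ) * l := by positivity
    have := h1 _ hkl
    have := h2 _ hkl
    linarith
  rw [Finset.sum_const, Finset.card_range, nsmul_eq_mul] at h11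
  have h12 : 3 / 4 ≤ N * (2 * p) := h4.trans (h10.trans h11)
  -- conclude
  have h13 : 3 / 4 * a ≤ N * a * (2 * p) := by nlinarith
  have hp0 : 0 ≤ p := by
    by_contra h
    push Not at h
    have : (N : ℝ) * (2 * p) ≤ 0 := by
      apply mul_nonpos_of_nonneg_of_nonpos (Nat.cast_nonneg _)
      linarith
    linarith
  nlinarith

/-- The small ball estimate. -/
theorem small_ball (s : Multiset ℝ) {a : ℝ} (ha : 0 < a) (ha1 : a ≤ 1)
    (hs : ∀ x ∈ s, 0 ≤ x ∧ x ≤ a) (hsum : (s.map (fun x => x ^ 2)).sum ≤ 1) :
    a / 16 ≤ avg s (ind (-a) a) 0 := by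
  classical
  by_cases h0 : s = 0
  · subst h0
    simp only [avg_zero]
    rw [ind_of_mem (by linarith) ha.le]
    linarith
  · -- pick the largest weight
    obtain ⟨x, hx, hmax⟩ : ∃ x ∈ s, ∀ z ∈ s, z ≤ x := by
      have hne : s.toFinset.Nonempty := by
        obtain ⟨z, hz⟩ := Multiset.exists_mem_of_ne_zero h0
        exact ⟨z, Multiset.mem_toFinset.2 hz⟩
      refine ⟨s.toFinset.max' hne, Multiset.mem_toFinset.1 (Finset.max'_mem _ _), ?_⟩
      intro z hz
      exact Finset.le_max' _ _ (Multiset.mem_toFinset.2 hz)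
    obtain ⟨s', rfl⟩ := Multiset.exists_cons_of_mem hx
    have hx' := hs x hx
    simp only [avg_cons, T, zero_add, zero_sub]
    have heven : avg s' (ind (-a) a) (-x) = avg s' (ind (-a) a) x := by
      rw [← avg_neg]
      congr 1
      funext z
      unfold ind
      have : (-a ≤ -z ∧ -z ≤ a) ↔ (-a ≤ z ∧ z ≤ a) := by
        constructor <;> rintro ⟨h1, h2⟩ <;> constructor <;> linarith
      simp only [this]
    have h1 : avg s' (ind 0 (x + a)) 0 ≤ avg s' (ind (-a) a) (-x) := by
      have h2 : avg s' (ind (-a) a) (-x) = avg s' (fun t => ind (-a) a (t + -x)) 0 := by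
        rw [avg_shift, zero_add]
      rw [h2]
      apply avg_mono
      intro t
      unfold ind
      split_ifs with h h'
      · exact le_refl _
      · exfalso
        apply h'
        constructor <;> linarith [h.1, h.2, hx'.1, hx'.2]
      · exact zero_le_one
      · exact le_refl _
    have h3 : avg s' (ind (-(x + a)) (x + a)) 0 ≤ 2 * avg s' (ind 0 (x + a)) 0 := by
      have h4 : avg s' (ind (-(x + a)) 0) 0 = avg s' (ind 0 (x + a)) 0 := by
        have h5 : ind (-(x + a)) 0 = fun z => ind 0 (x + a) (-z) := by
          funext z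
          unfold ind
          have : (-(x + a) ≤ z ∧ z ≤ 0) ↔ (0 ≤ -z ∧ -z ≤ x + a) := by
            constructor <;> rintro ⟨h1, h2⟩ <;> constructor <;> linarith
          simp only [this]
        rw [h5, avg_neg, neg_zero]
      have h6 : ∀ t, ind (-(x + a)) (x + a) t ≤ ind (-(x + a)) 0 t + ind 0 (x + a) t := by
        intro t
        by_cases ht : -(x + a) ≤ t ∧ t ≤ x + a
        · rw [ind_of_mem ht.1 ht.2]
          rcases le_total 0 t with h0 | h0
          · rw [ind_of_mem h0 ht.2]
            linarith [ind_nonneg (-(x + a)) 0 t]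
          · rw [ind_of_mem ht.1 h0]
            linarith [ind_nonneg 0 (x + a) t]
        · have : ind (-(x + a)) (x + a) t = 0 := by
            unfold ind
            rw [if_neg ht]
          rw [this]
          exact add_nonneg (ind_nonneg _ _ _) (ind_nonneg _ _ _)
      have h7 := avg_mono s' h6 0
      rw [avg_add, h4] at h7
      linarith
    have h8 : a / 8 ≤ avg s' (ind (-(x + a)) (x + a)) 0 := by
      apply small_ball_aux s' ha ha1 hx'.1 (by linarith [hx'.1]) (by linarith [hx'.2])
      · intro z hz
        exact ⟨(hs z (Multiset.mem_cons_of_mem hz)).1, hmax z (Multiset.mem_cons_of_mem hz)⟩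
      · rw [Multiset.map_cons, Multiset.sum_cons] at hsum
        nlinarith [sq_nonneg x]
    linarith

end Pool.Agent.MP_223ae3_pr
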