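import Pool.Agent.MP_223ae3_pr.Step

/-!
The maximisation argument.
-/

namespace Pool.Agent.MP_223ae3_pr

open Finset

/-- The weights indexed by a finset, as a multiset. -/
def wt {ι : Type*} (s : Finset ι) (a : ι → ℝ) : Multiset ℝ := s.val.map a

@[simp] theorem wt_empty {ι : Type*} (a : ι → ℝ) : wt ∅ a = 0 := rfl

theorem wt_insert {ι : Type*} [DecidableEq ι] {s : Finset ι} {i : ι} (hi : i ∉ s) (a : ι → ℝ) :
    wt (insert i s) a = a i ::ₘ wt s a := by
  simp [wt, Finset.insert_val_of_notMem hi]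

theorem wt_congr {ι : Type*} {s : Finset ι} {a b : ι → ℝ} (h : ∀ i ∈ s, a i = b i) :
    wt s a = wt s b := Multiset.map_congr rfl h

theorem wt_sum_sq {ι : Type*} (s : Finset ι) (a : ι → ℝ) :
    ((wt s a).map (fun x => x ^ 2)).sum = ∑ i ∈ s, a i ^ 2 := by
  simp [wt, Multiset.map_map, Function.comp_def]

theorem T_abs (x : ℝ) (f : ℝ → ℝ) : T |x| f = T x f := by
  funext t
  rcases abs_cases x with ⟨h, -⟩ | ⟨h, -⟩
  · rw [h]
  · rw [h]
    simp only [T]
    rw [sub_neg_eq_add, ← sub_eq_add_neg, add_comm]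

theorem avg_wt_abs {ι : Type*} (s : Finset ι) (a : ι → ℝ) (f : ℝ → ℝ) (t : ℝ) :
    avg (wt s (fun i => |a i|)) f t = avg (wt s a) f t := by
  classical
  induction s using Finset.induction generalizing t with
  | empty => rfl
  | insert i s hi ih =>
    rw [wt_insert hi, wt_insert hi, avg_cons, avg_cons, T_abs]
    simp only [T, ih]

theorem continuous_cube : Continuous cube := by
  unfold cube
  fun_prop

theorem continuous_avg {ι : Type*} (s : Finset ι) :
    Continuous (fun p : (ι → ℝ) × ℝ => avg (wt s p.1) cube p.2) := by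
  classical
  induction s using Finset.induction with
  | empty =>
    simp only [wt_empty, avg_zero]
    exact continuous_cube.comp continuous_snd
  | insert i s hi ih =>
    simp only [wt_insert hi, avg_cons, T]
    have h1 : Continuous fun p : (ι → ℝ) × ℝ => ((p.1, p.2 + p.1 i) : (ι → ℝ) × ℝ) := by
      fun_prop
    have h2 : Continuous fun p : (ι → ℝ) × ℝ => ((p.1, p.2 - p.1 i) : (ι → ℝ) × ℝ) := by
      fun_prop
    have h3 := ih.comp h1
    have h4 := ih.comp h2
    exact (h3.add h4).div_const 2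

/-- The third absolute moment. -/
noncomputable def third {n : ℕ} (a : Fin n → ℝ) : ℝ := avg (wt univ a) cube 0

theorem continuous_third {n : ℕ} : Continuous (third : (Fin n → ℝ) → ℝ) := by
  have h : Continuous fun a : Fin n → ℝ => ((a, 0) : (Fin n → ℝ) × ℝ) := by fun_prop
  exact (continuous_avg (univ : Finset (Fin n))).comp h

/-- Replacing two weights. -/
theorem third_split {n : ℕ} (a : Fin n → ℝ) {p q : Fin n} (hpq : p ≠ q) :
    third a = avg (a p ::ₘ a q ::ₘ wt ((univ.erase p).erase q) a) cube 0 := by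
  have hq : q ∈ univ.erase p := Finset.mem_erase.2 ⟨hpq.symm, mem_univ _⟩
  have h1 : wt univ a = a p ::ₘ wt (univ.erase p) a := by
    conv_lhs => rw [← Finset.insert_erase (mem_univ p), wt_insert (Finset.notMem_erase _ _)]
  have h2 : wt (univ.erase p) a = a q ::ₘ wt ((univ.erase p).erase q) a := by
    conv_lhs => rw [← Finset.insert_erase hq, wt_insert (Finset.notMem_erase _ _)]
  rw [third, h1, h2]

theorem sum_split {n : ℕ} (f : Fin n → ℝ) {p q : Fin n} (hpq : p ≠ q) :
    ∑ i, f i = f p + (f q + ∑ i ∈ (univ.erase p).erase q, f i) := by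
  have hq : q ∈ univ.erase p := Finset.mem_erase.2 ⟨hpq.symm, mem_univ _⟩
  rw [← Finset.add_sum_erase _ _ (mem_univ p), ← Finset.add_sum_erase _ _ hq]

/-- The stability inequality for nonnegative weights. -/
theorem stability_nonneg {n : ℕ} (hn : 1 ≤ n) (a : Fin n → ℝ) (ha0 : ∀ i, 0 ≤ a i)
    (ha : ∑ i, a i ^ 2 = 1) :
    third a + 1 / 1000 * ∑ i, a i ^ 4 ≤
      third (fun _ : Fin n => 1 / Real.sqrt n) + 1 / 1000 * (1 / n) := by
  classical
  let K : Set (Fin n → ℝ) := {a | (∀ i, 0 ≤ a i) ∧ ∑ i, a i ^ 2 = 1}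
  let Φ : (Fin n → ℝ) → ℝ := fun a => third a + 1 / 1000 * ∑ i, a i ^ 4
  have hKle : ∀ a ∈ K, ∀ i, a i ≤ 1 := by
    intro a ha i
    have h1 : a i ^ 2 ≤ ∑ i, a i ^ 2 :=
      Finset.single_le_sum (f := fun i => a i ^ 2) (fun i _ => sq_nonneg _) (mem_univ i)
    rw [ha.2] at h1
    nlinarith [ha.1 i]
  have hcont : Continuous Φ := continuous_third.add (by fun_prop)
  have hcomp : IsCompact K := by
    have hsub : K ⊆ Set.pi Set.univ (fun _ : Fin n => Set.Icc (0 : ℝ) 1) := by
      intro a ha i _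
      exact ⟨ha.1 i, hKle a ha i⟩
    refine IsCompact.of_isClosed_subset (isCompact_univ_pi fun _ => isCompact_Icc) ?_ hsub
    apply IsClosed.inter
    · have : {a : Fin n → ℝ | ∀ i, 0 ≤ a i} = ⋂ i, {a : Fin n → ℝ | 0 ≤ a i} := by
        ext a; simp
      change IsClosed {a : Fin n → ℝ | ∀ i, 0 ≤ a i}
      rw [this]
      exact isClosed_iInter fun i => isClosed_le continuous_const (continuous_apply i)
    · exact isClosed_eq (by fun_prop) continuous_const
  obtain ⟨m, hmK, hmax⟩ := hcomp.exists_isMaxOn ⟨a, ha0, ha⟩ hcont.continuousOn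
  have hmax : ∀ b ∈ K, Φ b ≤ Φ m := fun b hb => hmax hb
  have hnpos : (0 : ℝ) < n := by exact_mod_cast hn
  have : Nonempty (Fin n) := ⟨⟨0, hn⟩⟩
  obtain ⟨p, hp⟩ := Finite.exists_max m
  have hmp : 0 < m p := by
    by_contra h
    push Not at h
    have h0 : ∀ i, m i = 0 := fun i => le_antisymm ((hp i).trans h) (hmK.1 i)
    have := hmK.2
    simp [h0] at this
  -- all weights are equal
  have hall : ∀ q, m q = m p := by
    intro q
    by_contra hne
    have hpq : p ≠ q := fun h => hne (by rw [h])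
    have hlt : m q < m p := lt_of_le_of_ne (hp q) hne
    set c := Real.sqrt ((m p ^ 2 + m q ^ 2) / 2) with hc
    have hc0 : 0 ≤ c := Real.sqrt_nonneg _
    have hc2 : 2 * c ^ 2 = m p ^ 2 + m q ^ 2 := by
      rw [hc, Real.sq_sqrt (by positivity)]
      ring
    let b : Fin n → ℝ := Function.update (Function.update m p c) q c
    have hbp : b p = c := by simp [b, hpq]
    have hbq : b q = c := by simp [b]
    have hbe : ∀ i ∈ (univ.erase p).erase q, b i = m i := by
      intro i hi
      rw [Finset.mem_erase, Finset.mem_erase] at hi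
      simp [b, hi.1, hi.2.1]
    have hbK : b ∈ K := by
      constructor
      · intro i
        by_cases hiq : i = q
        · rw [hiq, hbq]; exact hc0
        · by_cases hip : i = p
          · rw [hip, hbp]; exact hc0
          · rw [hbe i (by simp [hiq, hip])]
            exact hmK.1 i
      · rw [sum_split (fun i => b i ^ 2) hpq, hbp, hbq,
          Finset.sum_congr rfl (fun i hi => by rw [hbe i hi])]
        have := hmK.2
        rw [sum_split (fun i => m i ^ 2) hpq] at this
        linarith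
    have h4b : ∑ i, b i ^ 4 = ∑ i, m i ^ 4 - (m p ^ 2 - m q ^ 2) ^ 2 / 2 := by
      rw [sum_split (fun i => b i ^ 4) hpq, hbp, hbq,
        Finset.sum_congr rfl (fun i hi => by rw [hbe i hi]), sum_split (fun i => m i ^ 4) hpq]
      have : c ^ 4 = ((m p ^ 2 + m q ^ 2) / 2) ^ 2 := by
        have h5 : c ^ 2 = (m p ^ 2 + m q ^ 2) / 2 := by linarith
        calc c ^ 4 = (c ^ 2) ^ 2 := by ring
          _ = _ := by rw [h5]
      rw [this]
      ring
    have hstep := step (wt ((univ.erase p).erase q) m) (hmK.1 q) (hp q) hmp (hKle m hmK p) hc0 hc2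
      (by
        intro x hx
        rw [wt, Multiset.mem_map] at hx
        obtain ⟨i, -, rfl⟩ := hx
        exact ⟨hmK.1 i, hp i⟩)
      (by
        rw [wt_sum_sq]
        have := hmK.2
        rw [sum_split (fun i => m i ^ 2) hpq] at this
        nlinarith [sq_nonneg (m p), sq_nonneg (m q)])
    have hthird : third m + (m p ^ 2 - m q ^ 2) ^ 2 / 1600 ≤ third b := by
      rw [third_split m hpq, third_split b hpq, hbp, hbq, wt_congr hbe]
      exact hstep
    have h6 := hmax b hbK
    simp only [Φ] at h6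
    rw [h4b] at h6
    have h7 : 0 < (m p ^ 2 - m q ^ 2) ^ 2 := by
      apply pow_pos
      nlinarith [hmK.1 q]
    linarith
  -- identify the maximiser
  have hmconst : m = fun _ => 1 / Real.sqrt n := by
    have h1 : (n : ℝ) * m p ^ 2 = 1 := by
      have := hmK.2
      rw [Finset.sum_congr rfl (fun i _ => by rw [hall i])] at this
      simpa using this
    have h2 : m p = 1 / Real.sqrt n := by
      have h3 : m p ^ 2 = (1 / Real.sqrt n) ^ 2 := by
        rw [div_pow, Real.sq_sqrt hnpos.le, one_pow]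
        field_simp
        linarith
      exact (sq_eq_sq₀ hmp.le (by positivity)).1 h3
    funext i
    rw [hall i, h2]
  have h1 := hmax a ⟨ha0, ha⟩
  simp only [Φ] at h1
  have h2 : ∑ i : Fin n, m i ^ 4 = 1 / n := by
    rw [hmconst]
    simp only [Finset.sum_const, Finset.card_univ, Fintype.card_fin, nsmul_eq_mul]
    have h3 : (1 / Real.sqrt n) ^ 4 = 1 / (n : ℝ) ^ 2 := by
      rw [div_pow, one_pow]
      congr 1
      calc Real.sqrt n ^ 4 = (Real.sqrt n ^ 2) ^ 2 := by ring
        _ = _ := by rw [Real.sq_sqrt hnpos.le]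
    rw [h3]
    field_simp
  rw [h2, hmconst] at h1
  exact h1

/-- The stability inequality. -/
theorem stability {n : ℕ} (hn : 1 ≤ n) (a : Fin n → ℝ) (ha : ∑ i, a i ^ 2 = 1) :
    third a ≤ third (fun _ : Fin n => 1 / Real.sqrt n) -
      1 / 1000 * ∑ i, (a i ^ 2 - 1 / n) ^ 2 := by
  have hnpos : (0 : ℝ) < n := by exact_mod_cast hn
  have h1 := stability_nonneg hn (fun i => |a i|) (fun i => abs_nonneg _) (by simpa using ha)
  have h2 : third (fun i => |a i|) = third a := avg_wt_abs _ _ _ _
  have h3 : ∑ i, |a i| ^ 4 = ∑ i, a i ^ 4 := by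
    refine Finset.sum_congr rfl fun i _ => ?_
    exact Even.pow_abs (by decide) _
  rw [h2, h3] at h1
  have h4 : ∑ i, (a i ^ 2 - 1 / n) ^ 2 = ∑ i, a i ^ 4 - 1 / n := by
    have : ∀ i, (a i ^ 2 - 1 / (n : ℝ)) ^ 2 = a i ^ 4 - 2 / n * a i ^ 2 + 1 / n ^ 2 := by
      intro i
      ring
    simp only [this]
    rw [Finset.sum_add_distrib, Finset.sum_sub_distrib, ← Finset.mul_sum, ha]
    simp only [Finset.sum_const, Finset.card_univ, Fintype.card_fin, nsmul_eq_mul]
    field_simp
    ring
  rw [h4]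
  linarith

end Pool.Agent.MP_223ae3_pr
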