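import Pool.Agent.MP_223ae3_pr.Maximum

/-!
Random signs.
-/

namespace Pool.Agent.MP_223ae3_pr

open Finset MeasureTheory ProbabilityTheory

variable {Ω : Type*} [MeasurableSpace Ω] {P : Measure Ω} [IsProbabilityMeasure P]

theorem integral_avg {ι : Type*} {ε : ι → Ω → ℝ} (hmeas : ∀ i, Measurable (ε i))
    (hind : iIndepFun ε P) (h1 : ∀ i, P {ω | ε i ω = 1} = 1 / 2)
    (h2 : ∀ i, P {ω | ε i ω = -1} = 1 / 2) (f : ℝ → ℝ) (hf : Measurable f) (a : ι → ℝ)
    (s : Finset ι) (t : ℝ) :
    Integrable (fun ω => f (t + ∑ i ∈ s, a i * ε i ω)) P ∧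
      ∫ ω, f (t + ∑ i ∈ s, a i * ε i ω) ∂P = avg (wt s a) f t := by
  classical
  induction s using Finset.induction generalizing t with
  | empty => simp
  | insert i s hi ih =>
    -- the two events
    let A : Set Ω := {ω | ε i ω = 1}
    let B : Set Ω := {ω | ε i ω = -1}
    have hA : MeasurableSet A := hmeas i (measurableSet_singleton 1)
    have hB : MeasurableSet B := hmeas i (measurableSet_singleton (-1))
    have hAB : Disjoint A B := by
      rw [Set.disjoint_left]
      intro ω hω hω'
      have e1 : ε i ω = 1 := hω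
      have e2 : ε i ω = -1 := hω'
      linarith
    have hae : ∀ᵐ ω ∂P, ω ∈ A ∪ B := by
      have h3 : P (A ∪ B) = 1 := by
        rw [measure_union hAB hB, h1 i, h2 i]
        exact ENNReal.add_halves 1
      exact (prob_compl_eq_zero_iff (hA.union hB)).2 h3
    let Y : Ω → ℝ := fun ω => ∑ j ∈ s, a j * ε j ω
    have hY : Measurable Y := by fun_prop
    have hdec : (fun ω => f (t + ∑ j ∈ insert i s, a j * ε j ω)) =ᵐ[P]
        fun ω => A.indicator (fun _ => (1 : ℝ)) ω * f (t + a i + Y ω) +
          B.indicator (fun _ => (1 : ℝ)) ω * f (t - a i + Y ω) := by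
      filter_upwards [hae] with ω hω
      rw [Finset.sum_insert hi]
      rcases hω with hω | hω
      · have e1 : ε i ω = 1 := hω
        have e2 : ω ∉ B := Set.disjoint_left.1 hAB hω
        rw [Set.indicator_of_mem hω, Set.indicator_of_notMem e2, e1]
        simp only [Y, mul_one, one_mul, zero_mul, add_zero]
        congr 1
        ring
      · have e1 : ε i ω = -1 := hω
        have e2 : ω ∉ A := Set.disjoint_right.1 hAB hω
        rw [Set.indicator_of_mem hω, Set.indicator_of_notMem e2, e1]
        simp only [Y, one_mul, zero_mul, zero_add]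
        congr 1
        ring
    have hindep : ∀ (c : ℝ) (u : ℝ), IndepFun (fun ω => ({c} : Set ℝ).indicator (fun _ => (1 : ℝ)) (ε i ω))
        (fun ω => f (u + Y ω)) P := by
      intro c u
      have h3 := hind.indepFun_finset {i} s (by simpa using hi) hmeas
      let φ : (({i} : Finset ι) → ℝ) → ℝ := fun x =>
        ({c} : Set ℝ).indicator (fun _ => (1 : ℝ)) (x ⟨i, Finset.mem_singleton_self i⟩)
      have hφ : Measurable φ :=
        (measurable_const.indicator (measurableSet_singleton c)).comp
          (measurable_pi_apply (⟨i, Finset.mem_singleton_self i⟩ : ({i} : Finset ι)))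
      let ψ : (s → ℝ) → ℝ := fun x => f (u + ∑ j : s, a j * x j)
      have hψ : Measurable ψ := hf.comp (by fun_prop)
      have h4 := h3.comp hφ hψ
      have h5 : (fun ω => f (u + Y ω)) = ψ ∘ (fun ω (j : s) => ε j ω) := by
        funext ω
        simp only [Function.comp, Y, ψ]
        rw [Finset.sum_coe_sort s (fun j => a j * ε j ω)]
      rw [h5]
      exact h4
    have hindA : ∀ ω, A.indicator (fun _ => (1 : ℝ)) ω =
        ({1} : Set ℝ).indicator (fun _ => (1 : ℝ)) (ε i ω) := by
      intro ω
      simp [Set.indicator, A]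
    have hindB : ∀ ω, B.indicator (fun _ => (1 : ℝ)) ω =
        ({-1} : Set ℝ).indicator (fun _ => (1 : ℝ)) (ε i ω) := by
      intro ω
      simp [Set.indicator, B]
    have hintA : Integrable (fun ω => A.indicator (fun _ => (1 : ℝ)) ω * f (t + a i + Y ω)) P := by
      have h3 := (ih (t + a i)).1.indicator hA
      refine h3.congr (Filter.Eventually.of_forall fun ω => ?_)
      by_cases hω : ω ∈ A <;> simp [hω, Y]
    have hintB : Integrable (fun ω => B.indicator (fun _ => (1 : ℝ)) ω * f (t - a i + Y ω)) P := by
      have h3 := (ih (t - a i)).1.indicator hB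
      refine h3.congr (Filter.Eventually.of_forall fun ω => ?_)
      by_cases hω : ω ∈ B <;> simp [hω, Y]
    refine ⟨(hintA.add hintB).congr hdec.symm, ?_⟩
    rw [integral_congr_ae hdec, integral_add hintA hintB]
    have hPA : ∫ ω, A.indicator (fun _ => (1 : ℝ)) ω ∂P = 1 / 2 := by
      rw [integral_indicator_const _ hA]
      have : P.real A = 1 / 2 := by
        rw [Measure.real, h1 i]
        simp
      rw [this]
      simp
    have hPB : ∫ ω, B.indicator (fun _ => (1 : ℝ)) ω ∂P = 1 / 2 := by
      rw [integral_indicator_const _ hB]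
      have : P.real B = 1 / 2 := by
        rw [Measure.real, h2 i]
        simp
      rw [this]
      simp
    have e1 : ∫ ω, A.indicator (fun _ => (1 : ℝ)) ω * f (t + a i + Y ω) ∂P =
        1 / 2 * avg (wt s a) f (t + a i) := by
      rw [← (ih (t + a i)).2, ← hPA]
      simp only [hindA]
      exact (hindep 1 (t + a i)).integral_fun_mul_eq_mul_integral
        (((measurable_const.indicator (measurableSet_singleton 1)).comp (hmeas i)).aestronglyMeasurable)
        ((hf.comp (measurable_const.add hY)).aestronglyMeasurable)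
    have e2 : ∫ ω, B.indicator (fun _ => (1 : ℝ)) ω * f (t - a i + Y ω) ∂P =
        1 / 2 * avg (wt s a) f (t - a i) := by
      rw [← (ih (t - a i)).2, ← hPB]
      simp only [hindB]
      exact (hindep (-1) (t - a i)).integral_fun_mul_eq_mul_integral
        (((measurable_const.indicator (measurableSet_singleton (-1))).comp (hmeas i)).aestronglyMeasurable)
        ((hf.comp (measurable_const.add hY)).aestronglyMeasurable)
    rw [e1, e2, wt_insert hi, avg_cons]
    simp only [T]
    ring

end Pool.Agent.MP_223ae3_pr
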