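import Pool.Agent.MP_223ae3_pr.Avg

/-!
Averaging two weights increases the third absolute moment.
-/

namespace Pool.Agent.MP_223ae3_pr

/-- The function `t ↦ |t|³`. -/
noncomputable def cube : ℝ → ℝ := fun t => |t| ^ 3

theorem cube_neg (t : ℝ) : cube (-t) = cube t := by simp [cube]

theorem avg_T (s : Multiset ℝ) (x : ℝ) (f : ℝ → ℝ) (t : ℝ) :
    avg s (T x f) t = T x (avg s f) t := by
  induction s using Multiset.induction generalizing t with
  | empty => rfl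
  | cons y s ih =>
    simp only [avg_cons, T] at ih ⊢
    rw [ih, ih]
    have e1 : t + y + x = t + x + y := by ring
    have e2 : t + y - x = t - x + y := by ring
    have e3 : t - y + x = t + x - y := by ring
    have e4 : t - y - x = t - x - y := by ring
    rw [e1, e2, e3, e4]
    ring

theorem P_le {x t : ℝ} (h0 : 0 ≤ t) (h : t ≤ x) :
    |x + t| ^ 3 + |x - t| ^ 3 = 2 * x ^ 3 + 6 * x * t ^ 2 := by
  rw [abs_of_nonneg (by linarith : 0 ≤ x + t), abs_of_nonneg (by linarith : 0 ≤ x - t)]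
  ring

theorem P_ge {x t : ℝ} (h0 : 0 ≤ x) (h : x ≤ t) :
    |x + t| ^ 3 + |x - t| ^ 3 = 2 * t ^ 3 + 6 * x ^ 2 * t := by
  rw [abs_of_nonneg (by linarith : 0 ≤ x + t), abs_of_nonpos (by linarith : x - t ≤ 0)]
  ring

/-- The polynomial in case A is nonnegative. -/
theorem caseA_nonneg {x u v r : ℝ} (hv : 0 ≤ v) (hvu : v ≤ u) (hr : 0 ≤ r)
    (hr2 : r ^ 2 = u ^ 2 + v ^ 2) (hu : 0 < u) :
    0 ≤ 2 * (r ^ 3 - u ^ 3) + 6 * x ^ 2 * (r - u) - 6 * x * v ^ 2 := by
  have hid : (r + u) * (2 * (r ^ 3 - u ^ 3) + 6 * x ^ 2 * (r - u) - 6 * x * v ^ 2) =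
      2 * v ^ 2 * (3 * (x - (r + u) / 2) ^ 2 + (r - u) ^ 2 / 4) := by
    have hv2 : v ^ 2 = r ^ 2 - u ^ 2 := by linarith
    rw [hv2]
    ring
  by_contra h
  push Not at h
  have h1 : (r + u) * (2 * (r ^ 3 - u ^ 3) + 6 * x ^ 2 * (r - u) - 6 * x * v ^ 2) < 0 :=
    mul_neg_of_pos_of_neg (by linarith) h
  rw [hid] at h1
  have h2 : 0 ≤ 2 * v ^ 2 * (3 * (x - (r + u) / 2) ^ 2 + (r - u) ^ 2 / 4) := by positivity
  linarith

theorem caseA_quant {x u v r : ℝ} (hv : 0 ≤ v) (hvu : v ≤ u) (hr : 0 ≤ r)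
    (hr2 : r ^ 2 = u ^ 2 + v ^ 2) (hu : 0 < u) (hx : x ≤ (u + v) / 2) :
    2 / 25 * u * v ^ 2 ≤ 2 * (r ^ 3 - u ^ 3) + 6 * x ^ 2 * (r - u) - 6 * x * v ^ 2 := by
  have hid : (r + u) * (2 * (r ^ 3 - u ^ 3) + 6 * x ^ 2 * (r - u) - 6 * x * v ^ 2) =
      2 * v ^ 2 * (3 * (x - (r + u) / 2) ^ 2 + (r - u) ^ 2 / 4) := by
    have hv2 : v ^ 2 = r ^ 2 - u ^ 2 := by linarith
    rw [hv2]
    ring
  have h1 : v + 2 / 5 * u ≤ r := by
    by_contra h
    push Not at h
    nlinarith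
  have h2 : r ≤ 142 / 100 * u := by
    by_contra h
    push Not at h
    nlinarith
  have h3 : 1 / 5 * u ≤ (r + u) / 2 - x := by linarith
  have h4 : 3 / 25 * u ^ 2 ≤ 3 * (x - (r + u) / 2) ^ 2 + (r - u) ^ 2 / 4 := by
    nlinarith [sq_nonneg (r - u)]
  have h5 : 2 * v ^ 2 * (3 / 25 * u ^ 2) ≤
      2 * v ^ 2 * (3 * (x - (r + u) / 2) ^ 2 + (r - u) ^ 2 / 4) :=
    mul_le_mul_of_nonneg_left h4 (by positivity)
  rw [← hid] at h5
  by_contra h
  push Not at h
  have h6 : (r + u) * (2 * (r ^ 3 - u ^ 3) + 6 * x ^ 2 * (r - u) - 6 * x * v ^ 2) <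
      (r + u) * (2 / 25 * u * v ^ 2) := mul_lt_mul_of_pos_left h (by linarith)
  have h7 : (r + u) * (2 / 25 * u * v ^ 2) ≤ (242 / 100 * u) * (2 / 25 * u * v ^ 2) :=
    mul_le_mul_of_nonneg_right (by linarith) (by positivity)
  nlinarith [mul_nonneg (sq_nonneg v) (sq_nonneg u)]

/-- Case B reduces to case A. -/
theorem caseB_ge {x u v r : ℝ} (hx0 : 0 ≤ x) (hxv : x ≤ v) (hvu : v ≤ u) (hr : 0 ≤ r)
    (hr2 : r ^ 2 = u ^ 2 + v ^ 2) :
    2 * (r ^ 3 - u ^ 3) + 6 * v ^ 2 * (r - u) - 6 * v * v ^ 2 ≤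
    2 * r ^ 3 + 6 * x ^ 2 * r + 2 * x ^ 3 - (2 * u ^ 3 + 6 * x ^ 2 * u) -
      (2 * v ^ 3 + 6 * x ^ 2 * v) := by
  have hd : v / 2 ≤ u + v - r := by
    by_contra h
    push Not at h
    have h1 : u + v / 2 < r := by linarith
    have h0 : 0 ≤ u + v / 2 := by linarith
    nlinarith
  have h1 : 0 ≤ (v - x) * (3 * (v + x) * (u + v - r) - (v ^ 2 + v * x + x ^ 2)) := by
    apply mul_nonneg (by linarith)
    have h2 : 3 * (v + x) * (v / 2) ≤ 3 * (v + x) * (u + v - r) :=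
      mul_le_mul_of_nonneg_left hd (by linarith)
    nlinarith
  nlinarith

/-- The key pointwise inequality. -/
theorem key_nonneg {x a b c : ℝ} (hx : 0 ≤ x) (hb : 0 ≤ b) (hba : b ≤ a) (ha : 0 < a)
    (hc : 0 ≤ c) (hc2 : 2 * c ^ 2 = a ^ 2 + b ^ 2) :
    (|x + (a + b)| ^ 3 + |x - (a + b)| ^ 3) + (|x + (a - b)| ^ 3 + |x - (a - b)| ^ 3) +
      (if x ≤ a then (a ^ 2 - b ^ 2) ^ 2 / (25 * a) else 0) ≤
    (|x + 2 * c| ^ 3 + |x - 2 * c| ^ 3) + 2 * x ^ 3 := by
  set u := a + b with hu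
  set v := a - b with hv
  set r := 2 * c with hr
  have hr0 : 0 ≤ r := by positivity
  have hv0 : 0 ≤ v := by linarith
  have hvu : v ≤ u := by linarith
  have hu0 : 0 < u := by linarith
  have hr2 : r ^ 2 = u ^ 2 + v ^ 2 := by
    rw [hr, hu, hv]
    linarith [hc2, (by ring : (2 * c) ^ 2 = 2 * (2 * c ^ 2)), (by ring : (a + b) ^ 2 + (a - b) ^ 2 = 2 * (a ^ 2 + b ^ 2))]
  have hur : u ≤ r := by
    by_contra h
    push Not at h
    nlinarith
  by_cases hxa : x ≤ a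
  · rw [if_pos hxa]
    have hxu : x ≤ u := by linarith
    have hxm : x ≤ (u + v) / 2 := by linarith
    have hq : (a ^ 2 - b ^ 2) ^ 2 / (25 * a) ≤ 2 / 25 * u * v ^ 2 := by
      have : (a ^ 2 - b ^ 2) ^ 2 = u ^ 2 * v ^ 2 := by
        rw [hu, hv]
        ring
      rw [this, div_le_iff₀ (by positivity)]
      have h1 : u ≤ 2 * a := by linarith
      have h2 : 0 ≤ u * v ^ 2 := by positivity
      nlinarith
    rw [P_ge hx hxu, P_ge hx (hxu.trans hur)]
    rcases le_total v x with hvx | hxv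
    · rw [P_le hv0 hvx]
      have := caseA_quant hv0 hvu hr0 hr2 hu0 hxm
      nlinarith
    · rw [P_ge hx hxv]
      have h1 := caseA_quant (x := v) hv0 hvu hr0 hr2 hu0 (by linarith)
      have h2 := caseB_ge hx hxv hvu hr0 hr2
      nlinarith
  · rw [if_neg hxa, add_zero]
    rcases le_total x u with hxu | hux
    · rw [P_ge hx hxu, P_ge hx (hxu.trans hur)]
      rcases le_total v x with hvx | hxv
      · rw [P_le hv0 hvx]
        have := caseA_nonneg (x := x) hv0 hvu hr0 hr2 hu0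
        nlinarith
      · rw [P_ge hx hxv]
        have h1 := caseA_nonneg (x := v) hv0 hvu hr0 hr2 hu0
        have h2 := caseB_ge hx hxv hvu hr0 hr2
        nlinarith
    · have hvx : v ≤ x := hvu.trans hux
      rw [P_le hu0.le hux, P_le hv0 hvx]
      rcases le_total x r with hxr | hrx
      · rw [P_ge hx hxr]
        have h1 : 0 ≤ (r - x) ^ 3 := pow_nonneg (by linarith) 3
        have h2 : 2 * r ^ 3 + 6 * x ^ 2 * r + 2 * x ^ 3 - (2 * x ^ 3 + 6 * x * u ^ 2 +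
            (2 * x ^ 3 + 6 * x * v ^ 2)) = 2 * (r - x) ^ 3 := by
          have : u ^ 2 = r ^ 2 - v ^ 2 := by linarith
          rw [this]
          ring
        linarith
      · rw [P_le hr0 hrx]
        have : u ^ 2 = r ^ 2 - v ^ 2 := by linarith
        rw [this]
        linarith [(by ring : 2 * x ^ 3 + 6 * x * (r ^ 2 - v ^ 2) + (2 * x ^ 3 + 6 * x * v ^ 2) =
          2 * x ^ 3 + 6 * x * r ^ 2 + 2 * x ^ 3)]

/-- The pointwise averaging inequality. -/
theorem step_pointwise {a b c : ℝ} (hb : 0 ≤ b) (hba : b ≤ a) (ha : 0 < a)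
    (hc : 0 ≤ c) (hc2 : 2 * c ^ 2 = a ^ 2 + b ^ 2) (x : ℝ) :
    T a (T b cube) x + (a ^ 2 - b ^ 2) ^ 2 / (100 * a) * ind (-a) a x ≤ T c (T c cube) x := by
  -- reduce to `0 ≤ x`
  have heven : ∀ p q : ℝ, T p (T q cube) (-x) = T p (T q cube) x := by
    intro p q
    simp only [T]
    have e1 : cube (-x + p + q) = cube (x - p - q) := by
      rw [← cube_neg]
      congr 1
      ring
    have e2 : cube (-x + p - q) = cube (x - p + q) := by
      rw [← cube_neg]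
      congr 1
      ring
    have e3 : cube (-x - p + q) = cube (x + p - q) := by
      rw [← cube_neg]
      congr 1
      ring
    have e4 : cube (-x - p - q) = cube (x + p + q) := by
      rw [← cube_neg]
      congr 1
      ring
    rw [e1, e2, e3, e4]
    ring
  have hind : ind (-a) a (-x) = ind (-a) a x := by
    unfold ind
    have : (-a ≤ -x ∧ -x ≤ a) ↔ (-a ≤ x ∧ x ≤ a) := by
      constructor <;> rintro ⟨h1, h2⟩ <;> constructor <;> linarith
    simp only [this]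
  have main : ∀ x : ℝ, 0 ≤ x → T a (T b cube) x +
      (a ^ 2 - b ^ 2) ^ 2 / (100 * a) * ind (-a) a x ≤ T c (T c cube) x := by
    intro x hx
    have h := key_nonneg hx hb hba ha hc hc2
    have h1 : (a ^ 2 - b ^ 2) ^ 2 / (100 * a) * ind (-a) a x =
        (if x ≤ a then (a ^ 2 - b ^ 2) ^ 2 / (25 * a) else 0) / 4 := by
      unfold ind
      by_cases hxa : x ≤ a
      · rw [if_pos ⟨by linarith, hxa⟩, if_pos hxa]
        field_simp
        ring
      · rw [if_neg (fun h => hxa h.2), if_neg hxa]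
        ring
    rw [h1]
    simp only [T, cube]
    have e1 : x + a + b = x + (a + b) := by ring
    have e2 : x + a - b = x + (a - b) := by ring
    have e3 : x - a + b = x - (a - b) := by ring
    have e4 : x - a - b = x - (a + b) := by ring
    have e5 : x + c + c = x + 2 * c := by ring
    have e6 : x + c - c = x := by ring
    have e7 : x - c + c = x := by ring
    have e8 : x - c - c = x - 2 * c := by ring
    rw [e1, e2, e3, e4, e5, e6, e7, e8, abs_of_nonneg hx]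
    linarith
  rcases le_total 0 x with hx | hx
  · exact main x hx
  · have := main (-x) (by linarith)
    rwa [heven, heven, hind] at this

/-- Averaging two weights, one of which is a largest one. -/
theorem step (s : Multiset ℝ) {a b c : ℝ} (hb : 0 ≤ b) (hba : b ≤ a) (ha : 0 < a) (ha1 : a ≤ 1)
    (hc : 0 ≤ c) (hc2 : 2 * c ^ 2 = a ^ 2 + b ^ 2) (hs : ∀ x ∈ s, 0 ≤ x ∧ x ≤ a)
    (hsum : (s.map (fun x => x ^ 2)).sum ≤ 1) :
    avg (a ::ₘ b ::ₘ s) cube 0 + (a ^ 2 - b ^ 2) ^ 2 / 1600 ≤ avg (c ::ₘ c ::ₘ s) cube 0 := by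
  have hT : ∀ p q : ℝ, avg (p ::ₘ q ::ₘ s) cube 0 = avg s (T p (T q cube)) 0 := by
    intro p q
    rw [avg_cons, avg_cons, avg_T]
    congr 1
    funext t
    exact (avg_T s q cube t).symm
  rw [hT, hT]
  have h1 := avg_mono s (step_pointwise hb hba ha hc hc2) 0
  rw [avg_add, avg_mul_left] at h1
  have h2 := small_ball s ha ha1 hs hsum
  have h3 : (a ^ 2 - b ^ 2) ^ 2 / 1600 ≤
      (a ^ 2 - b ^ 2) ^ 2 / (100 * a) * avg s (ind (-a) a) 0 := by
    calc (a ^ 2 - b ^ 2) ^ 2 / 1600 = (a ^ 2 - b ^ 2) ^ 2 / (100 * a) * (a / 16) := by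
          field_simp
          ring
      _ ≤ _ := mul_le_mul_of_nonneg_left h2 (by positivity)
  linarith

end Pool.Agent.MP_223ae3_pr
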